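import Pool.Agent.W977.LP.Prod

/-!
# Clipping of the visible variables (GTail)
-/

open MeasureTheory ProbabilityTheory Pool.Agent.W533.LP Function

namespace Pool.Agent.W977.LP

section step

variable {q ρ : ℝ} {s n : ℕ}

theorem Wt_update_true (y : V n → ℕ) (h : V n → Bool × ℕ) (v : V n) (m : ℕ)
    (hv : (h v).1 = true) :
    Wt s (Function.update y v m) h = Function.update (Wt s y h) v (m + s) := by
  ext u
  by_cases hu : u = v
  · subst hu
    simp [Wt, hv]
  · simp [Wt, hu]

theorem Wt_update_false (y : V n → ℕ) (h : V n → Bool × ℕ) (v : V n) (m : ℕ)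
    (hv : (h v).1 = false) :
    Wt s (Function.update y v m) h = Wt s y h := by
  ext u
  by_cases hu : u = v
  · subst hu
    simp [Wt, hv]
  · simp [Wt, hu]

theorem sl_Wt_update (y : V n → ℕ) (h : V n → Bool × ℕ) (v : V n) (m l : ℕ) :
    sl (Wt s (Function.update y v m) h) v l = sl (Wt s y h) v l := by
  cases hv : (h v).1 with
  | true =>
    rw [Wt_update_true y h v m hv]
    unfold sl
    simp only [Function.update_idem]
  | false => rw [Wt_update_false y h v m hv]

theorem pp_update (y : V n → ℕ) (v : V n) (m l : ℕ) :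
    pp q ρ s (Function.update y v m) v l = pp q ρ s y v l := by
  unfold pp
  congr 1
  ext h
  exact sl_Wt_update y h v m l

theorem sl_nonneg (hS : DSl) (W : V n → ℕ) (v : V n) (l : ℕ) : 0 ≤ sl W v l := by
  rcases (hS n W v l).1 with h | h <;> rw [h]
  exact zero_le_one

theorem sl_le_one (hS : DSl) (W : V n → ℕ) (v : V n) (l : ℕ) : sl W v l ≤ 1 := by
  rcases (hS n W v l).1 with h | h <;> rw [h]
  exact zero_le_one

theorem pp_nonneg (hS : DSl) (y : V n → ℕ) (v : V n) (l : ℕ) : 0 ≤ pp q ρ s y v l :=
  integral_nonneg fun _ => sl_nonneg hS _ v l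

theorem sl_int (hS : DSl) (hH : IsProbabilityMeasure (muH q ρ s n)) (y : V n → ℕ) (v : V n)
    (l : ℕ) : Integrable (fun h => sl (Wt s y h) v l) (muH q ρ s n) := by
  refine Integrable.of_bound (measurable_of_countable _).aestronglyMeasurable 1
    (Filter.Eventually.of_forall fun h => ?_)
  rw [Real.norm_eq_abs, abs_of_nonneg (sl_nonneg hS _ v l)]
  exact sl_le_one hS _ v l

theorem pp_le_one (hS : DSl) (hH : IsProbabilityMeasure (muH q ρ s n)) (y : V n → ℕ) (v : V n)
    (l : ℕ) : pp q ρ s y v l ≤ 1 := by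
  have h := integral_mono (sl_int hS hH y v l) (integrable_const (1 : ℝ))
    (fun h => sl_le_one hS (Wt s y h) v l)
  simpa [pp] using h

theorem gg_step (hS : DSl) (hH : IsProbabilityMeasure (muH q ρ s n)) (y : V n → ℕ) (v : V n)
    (m : ℕ) : |gg q ρ s (Function.update y v (m + 1)) - gg q ρ s (Function.update y v m)| ≤
      pp q ρ s y v (m + s) := by
  set A : (V n → Bool × ℕ) → ℝ := fun h => (Tc (Wt s (Function.update y v (m + 1)) h) : ℝ) with hA
  set B : (V n → Bool × ℕ) → ℝ := fun h => (Tc (Wt s (Function.update y v m) h) : ℝ) with hB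
  have hAB : ∀ h, 0 ≤ A h - B h ∧ A h - B h ≤ sl (Wt s y h) v (m + s) := by
    intro h
    cases hv : (h v).1 with
    | true =>
      have e : A h - B h = sl (Wt s y h) v (m + s) := by
        simp only [hA, hB]
        rw [Wt_update_true y h v _ hv, Wt_update_true y h v _ hv]
        unfold sl
        rw [show m + 1 + s = m + s + 1 by ring]
      rw [e]
      exact ⟨sl_nonneg hS _ v _, le_rfl⟩
    | false =>
      have e : A h - B h = 0 := by
        simp only [hA, hB]
        rw [Wt_update_false y h v _ hv, Wt_update_false y h v _ hv, sub_self]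
      rw [e]
      exact ⟨le_rfl, sl_nonneg hS _ v _⟩
  have hd : Integrable (fun h => A h - B h) (muH q ρ s n) := by
    refine Integrable.of_bound (measurable_of_countable _).aestronglyMeasurable 1
      (Filter.Eventually.of_forall fun h => ?_)
    rw [Real.norm_eq_abs, abs_of_nonneg (hAB h).1]
    exact (hAB h).2.trans (sl_le_one hS _ v _)
  have hgA : gg q ρ s (Function.update y v (m + 1)) = ∫ h, A h ∂(muH q ρ s n) := rfl
  have hgB : gg q ρ s (Function.update y v m) = ∫ h, B h ∂(muH q ρ s n) := rfl
  rw [hgA, hgB]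
  by_cases hBi : Integrable B (muH q ρ s n)
  · have hAi : Integrable A (muH q ρ s n) := by
      have : A = fun h => B h + (A h - B h) := by
        ext h
        ring
      rw [this]
      exact hBi.add hd
    rw [← integral_sub hAi hBi, abs_of_nonneg (integral_nonneg fun h => (hAB h).1)]
    exact integral_mono hd (sl_int hS hH y v _) (fun h => (hAB h).2)
  · have hAi : ¬ Integrable A (muH q ρ s n) := by
      intro hAi
      apply hBi
      have : B = fun h => A h - (A h - B h) := by
        ext h
        ring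
      rw [this]
      exact hAi.sub hd
    rw [integral_undef hAi, integral_undef hBi, sub_self, abs_zero]
    exact pp_nonneg hS y v _

theorem gg_sum (hS : DSl) (hH : IsProbabilityMeasure (muH q ρ s n)) (y : V n → ℕ) (v : V n)
    (m j : ℕ) : |gg q ρ s (Function.update y v (m + j)) - gg q ρ s (Function.update y v m)| ≤
      ∑ i ∈ Finset.range j, pp q ρ s y v (m + i + s) := by
  induction j with
  | zero => simp
  | succ j ih =>
    rw [Finset.sum_range_succ]
    have h := gg_step hS hH y v (m + j)
    have e : gg q ρ s (Function.update y v (m + (j + 1))) - gg q ρ s (Function.update y v m) =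
        (gg q ρ s (Function.update y v (m + j)) - gg q ρ s (Function.update y v m)) +
        (gg q ρ s (Function.update y v (m + j + 1)) - gg q ρ s (Function.update y v (m + j))) := by
      rw [show m + (j + 1) = m + j + 1 by ring]
      ring
    rw [e]
    exact (abs_add_le _ _).trans (add_le_add ih h)

end step

theorem clip_update_lt {n : ℕ} (L : ℕ) (y k : V n → ℕ) (v : V n) (j : ℕ) (hv : y v < L) :
    clip L y (Function.update k v j) = clip L y k := by
  ext u
  unfold clip
  by_cases hu : u = v
  · subst hu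
    simp [hv]
  · simp [hu]

theorem clip_update_ge {n : ℕ} (L : ℕ) (y k : V n → ℕ) (v : V n) (j : ℕ) (hv : ¬ y v < L) :
    clip L y (Function.update k v j) = Function.update (clip L y k) v (L + j) := by
  ext u
  unfold clip
  by_cases hu : u = v
  · subst hu
    simp [hv]
  · simp [hu]

theorem gTail (hG : GLaw) (hS : DSl) : GTail := by
  intro q h0 h1
  have hr1 : Real.sqrt q < 1 := by
    rw [Real.sqrt_lt' one_pos]
    simpa using h1
  have hp : 0 < 1 - Real.sqrt q := by linarith
  refine ⟨((1 - Real.sqrt q) ^ 2)⁻¹, by positivity, ?_⟩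
  intro ρ s hpar n L
  obtain ⟨hY, hH, -, -, -, hgg, -⟩ := hG q ρ s hpar n
  set C := ((1 - Real.sqrt q) ^ 2)⁻¹ with hC
  have hC0 : 0 ≤ C := by positivity
  set P : Measure (V n → ℕ) := PP (V n) q with hP
  have hPY : muY q n = P := rfl
  rw [hPY] at hY ⊢
  set f : (V n → ℕ) → ℝ := fun y => gg q ρ s y with hf
  have hfLG : LG f := by
    have hmean : 0 ≤ mean q := div_nonneg h0.le (by linarith)
    refine ⟨1 + (n : ℝ) ^ 2 * (1 + mean q), by positivity, fun y => (hgg y).trans ?_⟩
    have h2 : 0 ≤ ∑ v, (y v : ℝ) := Finset.sum_nonneg fun v _ => Nat.cast_nonneg _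
    have h3 : 0 ≤ (n : ℝ) ^ 2 * (1 + mean q) := by positivity
    nlinarith
  -- the clipped function
  set g : (V n → ℕ) → ℝ := fun y => gL q ρ s L y with hg
  have hge : ∀ y, g y = ∫ k, f (clip L y k) ∂P := fun y => rfl
  have hmp : MeasurePreserving (fun z : (V n → ℕ) × (V n → ℕ) => clip L z.1 z.2)
      (P.prod P) P := mp_clip h0 h1 L
  have hclipsum : ∀ y k : V n → ℕ, ∑ v, ((clip L y k v : ℕ) : ℝ) ≤
      ∑ v, (y v : ℝ) + ((n : ℝ) ^ 2 * L + ∑ v, (k v : ℝ)) := by
    intro y k
    have e : ∑ v : V n, (L : ℝ) = (n : ℝ) ^ 2 * L := by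
      rw [Finset.sum_const, Finset.card_univ, Fintype.card_prod, Fintype.card_fin, nsmul_eq_mul]
      push_cast
      ring
    rw [← e, ← Finset.sum_add_distrib, ← Finset.sum_add_distrib]
    apply Finset.sum_le_sum
    intro v _
    unfold clip
    have a1 : (0 : ℝ) ≤ y v := Nat.cast_nonneg _
    have a2 : (0 : ℝ) ≤ k v := Nat.cast_nonneg _
    have a3 : (0 : ℝ) ≤ L := Nat.cast_nonneg _
    split_ifs
    · linarith
    · push_cast
      linarith
  -- linear growth of `k ↦ f (clip L y k)`
  have hFLG : ∀ y, LG (fun k => f (clip L y k)) := by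
    intro y
    obtain ⟨D, hD, h⟩ := hfLG
    refine ⟨D * (1 + ∑ v, (y v : ℝ) + (n : ℝ) ^ 2 * L), by positivity, fun k => (h _).trans ?_⟩
    have h2 := hclipsum y k
    have h3 : 0 ≤ ∑ v, (y v : ℝ) := Finset.sum_nonneg fun v _ => Nat.cast_nonneg _
    have h4 : 0 ≤ ∑ v, (k v : ℝ) := Finset.sum_nonneg fun v _ => Nat.cast_nonneg _
    have h5 : 0 ≤ (n : ℝ) ^ 2 * L := by positivity
    rw [mul_assoc]
    apply mul_le_mul_of_nonneg_left _ hD
    nlinarith [mul_nonneg h3 h4, mul_nonneg h5 h4]
  have hgLG : LG g := by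
    obtain ⟨D, hD, h⟩ := hfLG
    have hsi : Integrable (fun k : V n → ℕ => ∑ v, (k v : ℝ)) P := by
      have hlg : LG (fun k : V n → ℕ => ∑ v, (k v : ℝ)) := by
        refine ⟨1, zero_le_one, fun k => ?_⟩
        have h4 : 0 ≤ ∑ v, (k v : ℝ) := Finset.sum_nonneg fun v _ => Nat.cast_nonneg _
        rw [abs_of_nonneg h4]
        linarith
      exact hlg.int h0 h1
    set m := ∫ k : V n → ℕ, ∑ v, (k v : ℝ) ∂P with hm
    have hm0 : 0 ≤ m := integral_nonneg fun k => Finset.sum_nonneg fun v _ => Nat.cast_nonneg _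
    have h5 : 0 ≤ (n : ℝ) ^ 2 * L := by positivity
    refine ⟨D * (1 + (n : ℝ) ^ 2 * L + m), by positivity, fun y => ?_⟩
    rw [hge]
    have h3 : 0 ≤ ∑ v, (y v : ℝ) := Finset.sum_nonneg fun v _ => Nat.cast_nonneg _
    have hb : Integrable (fun k : V n → ℕ => (1 + ∑ v, (y v : ℝ) + (n : ℝ) ^ 2 * L) +
        ∑ v, (k v : ℝ)) P := (integrable_const _).add hsi
    calc |∫ k, f (clip L y k) ∂P| ≤ ∫ k, |f (clip L y k)| ∂P := abs_integral_le_integral_abs
      _ ≤ ∫ k, D * ((1 + ∑ v, (y v : ℝ) + (n : ℝ) ^ 2 * L) + ∑ v, (k v : ℝ)) ∂P := by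
          apply integral_mono ((hFLG y).int h0 h1).abs (hb.const_mul D)
          intro k
          refine (h _).trans ?_
          apply mul_le_mul_of_nonneg_left _ hD
          have := hclipsum y k
          linarith
      _ = D * ((1 + ∑ v, (y v : ℝ) + (n : ℝ) ^ 2 * L) + m) := by
          rw [integral_const_mul, integral_add (integrable_const _) hsi]
          simp [hm]
      _ ≤ D * (1 + (n : ℝ) ^ 2 * L + m) * (1 + ∑ v, (y v : ℝ)) := by
          rw [mul_assoc]
          apply mul_le_mul_of_nonneg_left _ hD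
          nlinarith [mul_nonneg h5 h3, mul_nonneg hm0 h3]
  refine ⟨hgLG.memLp h0 h1, ?_⟩
  -- the error function
  set H : V n → (V n → ℕ) → ℝ := fun v z =>
    if L < z v then (pp q ρ s z v (z v + s - 1)) ^ 2 else 0 with hH'
  have hH0 : ∀ v z, 0 ≤ H v z := by
    intro v z
    simp only [hH']
    split_ifs
    · positivity
    · exact le_rfl
  have hH1 : ∀ v z, H v z ≤ 1 := by
    intro v z
    simp only [hH']
    split_ifs
    · have a1 := pp_nonneg (q := q) (ρ := ρ) (s := s) hS z v (z v + s - 1)
      have a2 := pp_le_one hS hH z v (z v + s - 1)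
      nlinarith
    · exact zero_le_one
  have hHi : ∀ v, Integrable (H v) P := by
    intro v
    refine Integrable.of_bound (measurable_of_countable _).aestronglyMeasurable 1
      (Filter.Eventually.of_forall fun z => ?_)
    rw [Real.norm_eq_abs, abs_of_nonneg (hH0 v z)]
    exact hH1 v z
  have hHLG : ∀ v, LG (H v) := by
    intro v
    refine ⟨1, zero_le_one, fun z => ?_⟩
    rw [abs_of_nonneg (hH0 v z), one_mul]
    exact (hH1 v z).trans (base_pos z)
  have hHclip : ∀ v y, LG (fun k => H v (clip L y k)) := by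
    intro v y
    refine ⟨1, zero_le_one, fun k => ?_⟩
    rw [abs_of_nonneg (hH0 v _), one_mul]
    exact (hH1 v _).trans (base_pos k)
  -- inner estimate
  have hinner : ∀ y v, ∫ k, (f (clip L y k) - f (clip L y (Function.update k v 0))) ^ 2 ∂P ≤
      C * ∫ k, H v (clip L y k) ∂P := by
    intro y v
    have hD : LG (fun k => f (clip L y k) - f (clip L y (Function.update k v 0))) :=
      (hFLG y).sub ((hFLG y).update v 0)
    rw [int_update h0 h1 (hD.int_sq h0 h1) v, int_update h0 h1 ((hHclip v y).int h0 h1) v,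
      ← integral_const_mul]
    apply integral_mono (int_update_inner h0 h1 (hD.int_sq h0 h1) v)
      ((int_update_inner h0 h1 ((hHclip v y).int h0 h1) v).const_mul C)
    intro k
    simp only [Function.update_idem]
    by_cases hv : y v < L
    · have e : ∀ j, clip L y (Function.update k v j) = clip L y k := fun j =>
        clip_update_lt L y k v j hv
      simp only [e, sub_self]
      have e2 : (∫ j : ℕ, (0 : ℝ) ^ 2 ∂(geoM q)) = 0 := by simp
      rw [e2]
      exact mul_nonneg hC0 (integral_nonneg fun j => hH0 v _)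
    · set z := clip L y k with hz
      have e : ∀ j, clip L y (Function.update k v j) = Function.update z v (L + j) := fun j =>
        clip_update_ge L y k v j hv
      simp only [e]
      have hha := hardy h0 h1 (fun i => pp q ρ s z v (L + i + s))
        (fun i => pp_nonneg hS z v _) (fun i => pp_le_one hS hH z v _)
      have hR : (fun j => H v (Function.update z v (L + j))) =
          fun j => if 0 < j then (pp q ρ s z v (L + (j - 1) + s)) ^ 2 else 0 := by
        ext j
        simp only [hH', Function.update_self, pp_update]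
        by_cases hj : 0 < j
        · rw [if_pos (by omega), if_pos hj]
          congr 3
          omega
        · rw [if_neg (by omega), if_neg hj]
      rw [hR]
      refine le_trans ?_ hha
      have hsec : MemLp (fun j => f (clip L y (Function.update k v j)) -
          f (clip L y (Function.update (Function.update k v j) v 0))) 2 (geoM q) :=
        hD.sec h0 h1 k v
      simp only [Function.update_idem, e] at hsec
      apply integral_mono hsec.integrable_sq
      · rw [geo_integrable h0 h1]
        refine Summable.of_nonneg_of_le (fun j => mul_nonneg (w_nonneg h0 h1 j) (abs_nonneg _))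
          (fun j => ?_) ((geo_integrable h0 h1 _).1 (geo_mom h0 h1 2))
        apply mul_le_mul_of_nonneg_left _ (w_nonneg h0 h1 j)
        rw [abs_of_nonneg (sq_nonneg _), abs_of_nonneg (by positivity)]
        have a1 : 0 ≤ ∑ i ∈ Finset.range j, pp q ρ s z v (L + i + s) :=
          Finset.sum_nonneg fun i _ => pp_nonneg hS z v _
        have a2 : ∑ i ∈ Finset.range j, pp q ρ s z v (L + i + s) ≤ j := by
          calc ∑ i ∈ Finset.range j, pp q ρ s z v (L + i + s)
              ≤ ∑ _i ∈ Finset.range j, (1 : ℝ) :=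
                Finset.sum_le_sum fun i _ => pp_le_one hS hH z v _
            _ = j := by simp
        exact pow_le_pow_left₀ a1 a2 2
      · intro j
        have a3 := gg_sum hS hH z v L j
        have a4 := abs_nonneg (gg q ρ s (Function.update z v (L + j)) -
          gg q ρ s (Function.update z v L))
        have a5 := pow_le_pow_left₀ a4 a3 2
        rw [sq_abs] at a5
        simpa using a5
  -- assembly
  have hfi := hfLG.int h0 h1
  have hfs := hfLG.int_sq h0 h1
  have hcomp_int : Integrable (fun z : (V n → ℕ) × (V n → ℕ) => (f (clip L z.1 z.2)) ^ 2)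
      (P.prod P) := hmp.integrable_comp_of_integrable hfs
  have hcomp_int1 : Integrable (fun z : (V n → ℕ) × (V n → ℕ) => f (clip L z.1 z.2))
      (P.prod P) := hmp.integrable_comp_of_integrable hfi
  have hcomp_H : ∀ v, Integrable (fun z : (V n → ℕ) × (V n → ℕ) => H v (clip L z.1 z.2))
      (P.prod P) := fun v => hmp.integrable_comp_of_integrable (hHi v)
  have e1 : ∫ y, (f y) ^ 2 ∂P = ∫ y, ∫ k, (f (clip L y k)) ^ 2 ∂P ∂P := by
    conv_lhs => rw [← hmp.map_eq]
    rw [integral_map hmp.measurable.aemeasurable (measurable_of_countable _).aestronglyMeasurable]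
    exact integral_prod _ hcomp_int
  have e2 : ∫ y, f y ∂P = ∫ y, g y ∂P := by
    conv_lhs => rw [← hmp.map_eq]
    rw [integral_map hmp.measurable.aemeasurable (measurable_of_countable _).aestronglyMeasurable]
    exact integral_prod _ hcomp_int1
  have e3 : ∀ v, ∫ y, H v y ∂P = ∫ y, ∫ k, H v (clip L y k) ∂P ∂P := by
    intro v
    conv_lhs => rw [← hmp.map_eq]
    rw [integral_map hmp.measurable.aemeasurable (measurable_of_countable _).aestronglyMeasurable]
    exact integral_prod _ (hcomp_H v)
  have hkey : ∫ y, (f y) ^ 2 ∂P - ∫ y, (g y) ^ 2 ∂P ≤ C * ∑ v, ∫ y, H v y ∂P := by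
    have i1 : Integrable (fun y => ∫ k, (f (clip L y k)) ^ 2 ∂P) P :=
      hcomp_int.integral_prod_left
    have i2 : ∀ v, Integrable (fun y => ∫ k, H v (clip L y k) ∂P) P := fun v =>
      (hcomp_H v).integral_prod_left
    have e4 : ∫ y, (∫ k, (f (clip L y k)) ^ 2 ∂P - (g y) ^ 2) ∂P ≤
        ∫ y, ∑ v, C * ∫ k, H v (clip L y k) ∂P ∂P := by
      apply integral_mono (i1.sub (hgLG.int_sq h0 h1))
        (integrable_finsetSum _ fun v _ => (i2 v).const_mul C)
      intro y
      have a1 := efron_stein h0 h1 (hFLG y)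
      have a2 : ∑ v, ∫ k, (f (clip L y k) - f (clip L y (Function.update k v 0))) ^ 2 ∂P ≤
          ∑ v, C * ∫ k, H v (clip L y k) ∂P := Finset.sum_le_sum fun v _ => hinner y v
      exact a1.trans a2
    rw [integral_sub i1 (hgLG.int_sq h0 h1), ← e1] at e4
    rw [integral_finsetSum _ (fun v _ => (i2 v).const_mul C)] at e4
    refine e4.trans (le_of_eq ?_)
    rw [Finset.mul_sum]
    refine Finset.sum_congr rfl fun v _ => ?_
    rw [integral_const_mul, e3 v]
  have v1 : variance f P = ∫ y, (f y) ^ 2 ∂P - (∫ y, f y ∂P) ^ 2 := by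
    rw [variance_eq_sub (hfLG.memLp h0 h1)]
    rfl
  have v2 : variance g P = ∫ y, (g y) ^ 2 ∂P - (∫ y, g y ∂P) ^ 2 := by
    rw [variance_eq_sub (hgLG.memLp h0 h1)]
    rfl
  have hsum : ∫ y, ∑ v, (if L < y v then (pp q ρ s y v (y v + s - 1)) ^ 2 else 0) ∂P =
      ∑ v, ∫ y, H v y ∂P := integral_finsetSum _ (fun v _ => hHi v)
  rw [hsum, v1, v2, e2]
  linarith

end Pool.Agent.W977.LP
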