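import Pool.Agent.W533.LP.Stm2

/-!
# The geometric law and products of geometric laws
-/

open MeasureTheory ProbabilityTheory Pool.Agent.W533.LP Function

namespace Pool.Agent.W977.LP

section geo

variable {q : ℝ} (h0 : 0 < q) (h1 : q < 1)

include h0 h1

theorem w_nonneg (k : ℕ) : 0 ≤ (1 - q) * q ^ k :=
  mul_nonneg (by linarith) (pow_nonneg h0.le k)

theorem geo_int (f : ℕ → ℝ) :
    ∫ k, f k ∂(geoM q) = ∑' k, (1 - q) * q ^ k * f k := by
  unfold geoM
  rw [integral_sum_dirac (fun i => ENNReal.ofReal_ne_top)]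
  congr 1
  ext k
  rw [ENNReal.toReal_ofReal (w_nonneg h0 h1 k), smul_eq_mul]

theorem geo_integrable (f : ℕ → ℝ) :
    Integrable f (geoM q) ↔ Summable (fun k => (1 - q) * q ^ k * |f k|) := by
  unfold geoM
  rw [integrable_sum_dirac_iff (fun i => ENNReal.ofReal_ne_top)]
  have : (fun i => (ENNReal.ofReal ((1 - q) * q ^ i)).toReal * ‖f i‖) =
      fun k => (1 - q) * q ^ k * |f k| := by
    ext k
    rw [ENNReal.toReal_ofReal (w_nonneg h0 h1 k), Real.norm_eq_abs]
  rw [this]

theorem geo_hasSum : HasSum (fun k : ℕ => (1 - q) * q ^ k) 1 := by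
  have h := (hasSum_geometric_of_lt_one h0.le h1).mul_left (1 - q)
  rwa [mul_inv_cancel₀ (by linarith : (1 - q) ≠ 0)] at h

omit h0 h1 in
theorem geo_apply (A : Set ℕ) :
    geoM q A = ∑' k, ENNReal.ofReal ((1 - q) * q ^ k) * A.indicator 1 k := by
  unfold geoM
  rw [Measure.sum_apply _ (Set.to_countable A).measurableSet]
  congr 1
  ext k
  rw [Measure.smul_apply, Measure.dirac_apply, smul_eq_mul]

omit h0 h1 in
theorem geo_singleton (k : ℕ) : geoM q {k} = ENNReal.ofReal ((1 - q) * q ^ k) := by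
  rw [geo_apply, tsum_eq_single k]
  · simp
  · intro j hj
    simp [hj]

theorem geo_prob : IsProbabilityMeasure (geoM q) := by
  constructor
  rw [geo_apply]
  simp only [Set.indicator_univ, Pi.one_apply, mul_one]
  rw [← ENNReal.ofReal_tsum_of_nonneg (w_nonneg h0 h1) (geo_hasSum h0 h1).summable,
    (geo_hasSum h0 h1).tsum_eq, ENNReal.ofReal_one]

theorem geo_tail (L : ℕ) : geoM q {k | L ≤ k} = ENNReal.ofReal (q ^ L) := by
  have := geo_prob h0 h1
  induction L with
  | zero =>
    simp only [Nat.zero_le, Set.ofPred_true, measure_univ, pow_zero, ENNReal.ofReal_one]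
  | succ L ih =>
    have e : {k : ℕ | L ≤ k} = {L} ∪ {k | L + 1 ≤ k} := by
      ext k
      simp only [Set.mem_ofPred_eq, Set.mem_union, Set.mem_singleton_iff]
      omega
    have hd : Disjoint ({L} : Set ℕ) {k | L + 1 ≤ k} := by
      rw [Set.disjoint_singleton_left]
      simp
    rw [e, measure_union hd (Set.to_countable _).measurableSet, geo_singleton] at ih
    have h2 : ENNReal.ofReal (q ^ L) =
        ENNReal.ofReal ((1 - q) * q ^ L) + ENNReal.ofReal (q ^ (L + 1)) := by
      rw [← ENNReal.ofReal_add (w_nonneg h0 h1 L) (by positivity)]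
      congr 1
      ring
    rw [h2] at ih
    exact (ENNReal.add_right_inj ENNReal.ofReal_ne_top).1 ih

theorem geo_mom (r : ℕ) : Integrable (fun k : ℕ => (k : ℝ) ^ r) (geoM q) := by
  rw [geo_integrable h0 h1]
  have h := (summable_pow_mul_geometric_of_norm_lt_one (R := ℝ) r (r := q)
    (by rw [Real.norm_eq_abs, abs_of_pos h0]; exact h1)).mul_left (1 - q)
  refine h.congr fun k => ?_
  rw [abs_of_nonneg (by positivity)]
  ring

/-- Hardy inequality for the geometric law. -/
theorem hardy (a : ℕ → ℝ) (ha0 : ∀ i, 0 ≤ a i) (ha1 : ∀ i, a i ≤ 1) :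
    ∫ j, (∑ i ∈ Finset.range j, a i) ^ 2 ∂(geoM q) ≤
      ((1 - Real.sqrt q) ^ 2)⁻¹ * ∫ j, (if 0 < j then (a (j - 1)) ^ 2 else 0) ∂(geoM q) := by
  set r := Real.sqrt q with hr
  have hr0 : 0 < r := Real.sqrt_pos.2 h0
  have hrr : r * r = q := Real.mul_self_sqrt h0.le
  have hr1 : r < 1 := by nlinarith
  have hp : 0 < 1 - r := by linarith
  set S : ℕ → ℝ := fun j => ∑ i ∈ Finset.range j, a i with hS
  set b : ℕ → ℝ := fun j => if 0 < j then (a (j - 1)) ^ 2 else 0 with hb
  have hb0 : ∀ j, 0 ≤ b j := by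
    intro j
    simp only [hb]
    split_ifs
    · positivity
    · exact le_rfl
  have hb1 : ∀ j, b j ≤ 1 := by
    intro j
    simp only [hb]
    split_ifs
    · have := ha0 (j - 1)
      have := ha1 (j - 1)
      nlinarith
    · exact zero_le_one
  have key : ∀ x y : ℝ, (x + y) ^ 2 ≤ x ^ 2 / r + y ^ 2 / (1 - r) := by
    intro x y
    have e : x ^ 2 / r + y ^ 2 / (1 - r) - (x + y) ^ 2 =
        ((1 - r) * x - r * y) ^ 2 / (r * (1 - r)) := by
      field_simp
      ring
    have : 0 ≤ ((1 - r) * x - r * y) ^ 2 / (r * (1 - r)) := by positivity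
    linarith
  have hfin : ∀ N, ∑ j ∈ Finset.range N, (1 - q) * q ^ j * (S j) ^ 2 ≤
      ((1 - r) ^ 2)⁻¹ * ∑ j ∈ Finset.range N, (1 - q) * q ^ j * b j := by
    intro N
    cases N with
    | zero => simp
    | succ N =>
      set X := ∑ j ∈ Finset.range (N + 1), (1 - q) * q ^ j * (S j) ^ 2 with hX
      set Y := ∑ j ∈ Finset.range (N + 1), (1 - q) * q ^ j * b j with hY
      have e1 : X ≤ r * X + (1 - r)⁻¹ * Y := by
        have e2 : X = ∑ j ∈ Finset.range N, (1 - q) * q ^ (j + 1) * (S (j + 1)) ^ 2 := by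
          rw [hX, Finset.sum_range_succ']
          simp [hS]
        have e3 : Y = ∑ j ∈ Finset.range N, (1 - q) * q ^ (j + 1) * (a j) ^ 2 := by
          rw [hY, Finset.sum_range_succ']
          simp [hb]
        have e4 : ∀ j ∈ Finset.range N, (1 - q) * q ^ (j + 1) * (S (j + 1)) ^ 2 ≤
            r * ((1 - q) * q ^ j * (S j) ^ 2) +
              (1 - r)⁻¹ * ((1 - q) * q ^ (j + 1) * (a j) ^ 2) := by
          intro j _
          have e5 : S (j + 1) = S j + a j := by
            simp only [hS]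
            rw [Finset.sum_range_succ]
          have e6 := mul_le_mul_of_nonneg_left (key (S j) (a j)) (w_nonneg h0 h1 (j + 1))
          rw [e5]
          refine e6.trans (le_of_eq ?_)
          rw [← hrr]
          field_simp
          ring
        have e7 : ∑ j ∈ Finset.range N, (1 - q) * q ^ j * (S j) ^ 2 ≤ X := by
          rw [hX, Finset.sum_range_succ]
          have := mul_nonneg (w_nonneg h0 h1 N) (sq_nonneg (S N))
          linarith
        calc X = ∑ j ∈ Finset.range N, (1 - q) * q ^ (j + 1) * (S (j + 1)) ^ 2 := e2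
          _ ≤ ∑ j ∈ Finset.range N, (r * ((1 - q) * q ^ j * (S j) ^ 2) +
              (1 - r)⁻¹ * ((1 - q) * q ^ (j + 1) * (a j) ^ 2)) := Finset.sum_le_sum e4
          _ = r * (∑ j ∈ Finset.range N, (1 - q) * q ^ j * (S j) ^ 2) + (1 - r)⁻¹ * Y := by
            rw [Finset.sum_add_distrib, ← Finset.mul_sum, ← Finset.mul_sum, ← e3]
          _ ≤ r * X + (1 - r)⁻¹ * Y := by
            have := mul_le_mul_of_nonneg_left e7 hr0.le
            linarith
      have e8 : (1 - r) * X ≤ (1 - r)⁻¹ * Y := by linarith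
      have e9 : X ≤ (1 - r)⁻¹ * ((1 - r)⁻¹ * Y) := by
        rw [inv_mul_eq_div, le_div_iff₀ hp]
        linarith
      refine e9.trans (le_of_eq ?_)
      rw [pow_two, mul_inv, mul_assoc]
  have hsb : Summable fun j => (1 - q) * q ^ j * b j := by
    refine Summable.of_nonneg_of_le (fun j => mul_nonneg (w_nonneg h0 h1 j) (hb0 j))
      (fun j => ?_) (geo_hasSum h0 h1).summable
    have := w_nonneg h0 h1 j
    have := hb1 j
    nlinarith
  rw [geo_int h0 h1, geo_int h0 h1]
  have hC : 0 ≤ ((1 - r) ^ 2)⁻¹ := by positivity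
  refine Real.tsum_le_of_sum_range_le (fun j => mul_nonneg (w_nonneg h0 h1 j) (sq_nonneg _)) ?_
  intro N
  refine (hfin N).trans ?_
  apply mul_le_mul_of_nonneg_left _ hC
  exact hsb.sum_le_tsum _ (fun j _ => mul_nonneg (w_nonneg h0 h1 j) (hb0 j))

/-- Memoryless property. -/
theorem clip_geo (L : ℕ) :
    Measure.map (fun z : ℕ × ℕ => if z.1 < L then z.1 else L + z.2)
      ((geoM q).prod (geoM q)) = geoM q := by
  have := geo_prob h0 h1
  apply Measure.ext_of_singleton
  intro k
  rw [Measure.map_apply (measurable_of_countable _) (measurableSet_singleton k)]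
  by_cases hk : k < L
  · have e : (fun z : ℕ × ℕ => if z.1 < L then z.1 else L + z.2) ⁻¹' {k} =
        ({k} : Set ℕ) ×ˢ Set.univ := by
      ext ⟨a, b⟩
      simp only [Set.mem_preimage, Set.mem_singleton_iff, Set.mem_prod, Set.mem_univ, and_true]
      split_ifs with h <;> omega
    rw [e, Measure.prod_prod, measure_univ, mul_one]
  · have e : (fun z : ℕ × ℕ => if z.1 < L then z.1 else L + z.2) ⁻¹' {k} =
        {a : ℕ | L ≤ a} ×ˢ ({k - L} : Set ℕ) := by
      ext ⟨a, b⟩
      simp only [Set.mem_preimage, Set.mem_singleton_iff, Set.mem_prod, Set.mem_ofPred_eq]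
      split_ifs with h <;> omega
    rw [e, Measure.prod_prod, geo_tail h0 h1, geo_singleton, geo_singleton,
      ← ENNReal.ofReal_mul (by positivity)]
    congr 1
    have : q ^ k = q ^ L * q ^ (k - L) := by
      rw [← pow_add]
      congr 1
      omega
    rw [this]
    ring

end geo

end Pool.Agent.W977.LP
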