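import Pool.Agent.W977.LP.Geo

/-!
# Functions of linear growth of independent geometric variables; Efron-Stein inequality
-/

open MeasureTheory ProbabilityTheory Pool.Agent.W533.LP Function

namespace Pool.Agent.W977.LP

variable {ι : Type} [Fintype ι] [DecidableEq ι]

/-- Product of geometric laws. -/
noncomputable def PP (ι : Type) [Fintype ι] (q : ℝ) : Measure (ι → ℕ) :=
  Measure.pi (fun _ => geoM q)

/-- Linear growth. -/
def LG (F : (ι → ℕ) → ℝ) : Prop := ∃ C : ℝ, 0 ≤ C ∧ ∀ y, |F y| ≤ C * (1 + ∑ v, (y v : ℝ))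

section

variable {q : ℝ} (h0 : 0 < q) (h1 : q < 1)

include h0 h1

theorem pp_prob : IsProbabilityMeasure (PP ι q) := by
  have := geo_prob h0 h1
  unfold PP
  infer_instance

theorem mp_update (i : ι) :
    MeasurePreserving (fun z : (ι → ℕ) × ℕ => update z.1 i z.2)
      ((PP ι q).prod (geoM q)) (PP ι q) := by
  have := geo_prob h0 h1
  have := pp_prob (ι := ι) h0 h1
  refine ⟨measurable_of_countable _, ?_⟩
  symm
  refine Measure.pi_eq fun s hs => ?_
  rw [Measure.map_apply (measurable_of_countable _) (MeasurableSet.univ_pi hs)]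
  have hpre : (fun q : (ι → ℕ) × ℕ => update q.1 i q.2) ⁻¹' (Set.univ.pi s) =
      (Set.univ.pi (update s i Set.univ)) ×ˢ (s i) := by
    ext z
    simp only [Set.mem_preimage, Set.mem_pi, Set.mem_univ, forall_const, Set.mem_prod]
    constructor
    · intro hq
      refine ⟨fun j => ?_, ?_⟩
      · by_cases hj : j = i
        · subst hj
          simp
        · have := hq j
          rw [update_of_ne hj] at this
          rw [update_of_ne hj]
          exact this
      · have := hq i
        rwa [update_self] at this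
    · rintro ⟨h1, h2⟩ j
      by_cases hj : j = i
      · subst hj
        rw [update_self]
        exact h2
      · have := h1 j
        rw [update_of_ne hj] at this
        rw [update_of_ne hj]
        exact this
  rw [hpre, Measure.prod_prod]
  unfold PP
  rw [Measure.pi_pi]
  rw [← Finset.mul_prod_erase Finset.univ (fun j => geoM q (s j)) (Finset.mem_univ i),
    ← Finset.mul_prod_erase Finset.univ (fun j => geoM q (update s i Set.univ j))
      (Finset.mem_univ i)]
  rw [update_self, measure_univ, one_mul, mul_comm]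
  congr 1
  refine Finset.prod_congr rfl fun j hj => ?_
  rw [update_of_ne (Finset.ne_of_mem_erase hj)]

/-- Clipping at `L`: keep the values below `L`, replace the others by `L` plus a new variable. -/
def clip (L : ℕ) (y k : ι → ℕ) : ι → ℕ := fun v => if y v < L then y v else L + k v

omit h0 h1 [Fintype ι] [DecidableEq ι] in
theorem clip_def (L : ℕ) (y k : ι → ℕ) :
    clip L y k = fun v => if y v < L then y v else L + k v := rfl

theorem mp_clip (L : ℕ) :
    MeasurePreserving (fun z : (ι → ℕ) × (ι → ℕ) => clip L z.1 z.2)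
      ((PP ι q).prod (PP ι q)) (PP ι q) := by
  have hg := geo_prob h0 h1
  have hpp := pp_prob (ι := ι) h0 h1
  have e1 : (PP ι q).prod (PP ι q) = Measure.map (MeasurableEquiv.arrowProdEquivProdArrow ℕ ℕ ι)
      (Measure.pi (fun _ : ι => (geoM q).prod (geoM q))) := by
    have := (measurePreserving_arrowProdEquivProdArrow ℕ ℕ ι (fun _ => geoM q)
      (fun _ => geoM q)).map_eq
    exact this.symm
  refine ⟨measurable_of_countable _, ?_⟩
  rw [e1, Measure.map_map (measurable_of_countable _)
    (MeasurableEquiv.arrowProdEquivProdArrow ℕ ℕ ι).measurable]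
  have e2 : ((fun z : (ι → ℕ) × (ι → ℕ) => clip L z.1 z.2) ∘
      (MeasurableEquiv.arrowProdEquivProdArrow ℕ ℕ ι)) =
      fun (x : ι → ℕ × ℕ) i => (fun z : ℕ × ℕ => if z.1 < L then z.1 else L + z.2) (x i) := by
    ext x i
    rfl
  rw [e2]
  have e3 := clip_geo h0 h1 L
  have : ∀ i : ι, SigmaFinite (Measure.map (fun z : ℕ × ℕ => if z.1 < L then z.1 else L + z.2)
      ((geoM q).prod (geoM q))) := by
    intro i
    rw [e3]
    infer_instance
  have e4 := Measure.pi_map_pi (X := fun _ : ι => ℕ × ℕ) (Y := fun _ : ι => ℕ)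
    (μ := fun _ : ι => (geoM q).prod (geoM q))
    (f := fun _ => fun z : ℕ × ℕ => if z.1 < L then z.1 else L + z.2) (hμ := this)
    (fun i => (measurable_of_countable _).aemeasurable)
  rw [e4, e3]
  rfl

theorem base_memLp : MemLp (fun y : ι → ℕ => 1 + ∑ v, (y v : ℝ)) 2 (PP ι q) := by
  have hg := geo_prob h0 h1
  have hpp := pp_prob (ι := ι) h0 h1
  have h2 : ∀ v : ι, MemLp (fun y : ι → ℕ => (y v : ℝ)) 2 (PP ι q) := by
    intro v
    have hmp : MeasurePreserving (Function.eval v) (PP ι q) (geoM q) :=
      measurePreserving_eval (fun _ => geoM q) v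
    have h3 : MemLp (fun k : ℕ => (k : ℝ)) 2 (geoM q) := by
      rw [memLp_two_iff_integrable_sq (measurable_of_countable _).aestronglyMeasurable]
      exact geo_mom h0 h1 2
    have h4 := h3.comp_measurePreserving hmp
    exact h4
  have hc : MemLp (fun _ : ι → ℕ => (1 : ℝ)) 2 (PP ι q) := memLp_const 1
  have hs : MemLp (fun y : ι → ℕ => ∑ v, (y v : ℝ)) 2 (PP ι q) :=
    memLp_finsetSum Finset.univ (fun v _ => h2 v)
  have hcs := hc.add hs
  exact hcs

theorem LG.memLp {F : (ι → ℕ) → ℝ} (hF : LG F) : MemLp F 2 (PP ι q) := by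
  obtain ⟨C, hC, h⟩ := hF
  refine (base_memLp h0 h1).of_le_mul (c := C) (measurable_of_countable _).aestronglyMeasurable
    (Filter.Eventually.of_forall fun y => ?_)
  rw [Real.norm_eq_abs, Real.norm_eq_abs]
  refine (h y).trans ?_
  exact mul_le_mul_of_nonneg_left (le_abs_self _) hC

theorem LG.int {F : (ι → ℕ) → ℝ} (hF : LG F) : Integrable F (PP ι q) := by
  have := pp_prob (ι := ι) h0 h1
  exact (hF.memLp h0 h1).integrable (by norm_num)

theorem LG.int_sq {F : (ι → ℕ) → ℝ} (hF : LG F) :
    Integrable (fun y => (F y) ^ 2) (PP ι q) := (hF.memLp h0 h1).integrable_sq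

omit h0 h1 [DecidableEq ι] in
theorem base_pos (y : ι → ℕ) : 1 ≤ 1 + ∑ v, (y v : ℝ) := by
  have : 0 ≤ ∑ v, (y v : ℝ) := Finset.sum_nonneg fun v _ => Nat.cast_nonneg _
  linarith

omit h0 h1 in
theorem sum_update_le (y : ι → ℕ) (v : ι) (j : ℕ) :
    ∑ u, ((update y v j u : ℕ) : ℝ) ≤ ∑ u, (y u : ℝ) + j := by
  have h2 : ∑ u, ((update y v j u : ℕ) : ℝ) ≤ ∑ u, ((y u : ℝ) + if u = v then (j : ℝ) else 0) := by
    apply Finset.sum_le_sum
    intro u _
    by_cases hu : u = v
    · subst hu
      simp
    · simp [hu]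
  rw [Finset.sum_add_distrib] at h2
  simpa using h2

omit h0 h1 in
theorem LG.update {F : (ι → ℕ) → ℝ} (hF : LG F) (v : ι) (m : ℕ) :
    LG (fun y => F (update y v m)) := by
  obtain ⟨C, hC, h⟩ := hF
  refine ⟨C * (1 + m), by positivity, fun y => (h _).trans ?_⟩
  have h2 := sum_update_le y v m
  have h3 := base_pos y
  rw [mul_assoc]
  apply mul_le_mul_of_nonneg_left _ hC
  have h4 : (0 : ℝ) ≤ m := Nat.cast_nonneg m
  nlinarith

omit h0 h1 in
theorem LG.sub {F G : (ι → ℕ) → ℝ} (hF : LG F) (hG : LG G) : LG (fun y => F y - G y) := by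
  obtain ⟨C, hC, h⟩ := hF
  obtain ⟨D, hD, h'⟩ := hG
  refine ⟨C + D, by positivity, fun y => ?_⟩
  have := abs_sub (F y) (G y)
  have := h y
  have := h' y
  rw [add_mul]
  linarith

theorem LG.sec {F : (ι → ℕ) → ℝ} (hF : LG F) (y : ι → ℕ) (v : ι) :
    MemLp (fun j => F (Function.update y v j)) 2 (geoM q) := by
  have hg := geo_prob h0 h1
  obtain ⟨C, hC, h⟩ := hF
  have hk : MemLp (fun k : ℕ => (k : ℝ)) 2 (geoM q) := by
    rw [memLp_two_iff_integrable_sq (measurable_of_countable _).aestronglyMeasurable]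
    exact geo_mom h0 h1 2
  have hc : MemLp (fun _ : ℕ => 1 + ∑ u, (y u : ℝ)) 2 (geoM q) := memLp_const _
  have h3 : MemLp (fun k : ℕ => (1 + ∑ u, (y u : ℝ)) + (k : ℝ)) 2 (geoM q) := hc.add hk
  refine h3.of_le_mul (c := C) (measurable_of_countable _).aestronglyMeasurable
    (Filter.Eventually.of_forall fun j => ?_)
  rw [Real.norm_eq_abs, Real.norm_eq_abs]
  refine (h _).trans ?_
  apply mul_le_mul_of_nonneg_left _ hC
  refine le_trans ?_ (le_abs_self _)
  have := sum_update_le y v j
  linarith

/-- Average over one coordinate. -/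
noncomputable def av (q : ℝ) (v : ι) (F : (ι → ℕ) → ℝ) (y : ι → ℕ) : ℝ :=
  ∫ j, F (Function.update y v j) ∂(geoM q)

theorem LG.av {F : (ι → ℕ) → ℝ} (hF : LG F) (v : ι) : LG (av q v F) := by
  have hg := geo_prob h0 h1
  have hF' := hF
  obtain ⟨C, hC, h⟩ := hF
  have hm : Integrable (fun k : ℕ => (k : ℝ)) (geoM q) := by
    simpa using geo_mom h0 h1 1
  set m := ∫ k : ℕ, (k : ℝ) ∂(geoM q) with hmd
  have hm0 : 0 ≤ m := integral_nonneg fun k => Nat.cast_nonneg k
  refine ⟨C * (1 + m), by positivity, fun y => ?_⟩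
  unfold Pool.Agent.W977.LP.av
  have hi : Integrable (fun j => F (Function.update y v j)) (geoM q) :=
    (hF'.sec h0 h1 y v).integrable (by norm_num)
  have hb : Integrable (fun k : ℕ => C * ((1 + ∑ u, (y u : ℝ)) + (k : ℝ))) (geoM q) :=
    ((integrable_const _).add hm).const_mul C
  calc |∫ j, F (Function.update y v j) ∂(geoM q)|
      ≤ ∫ j, |F (Function.update y v j)| ∂(geoM q) := abs_integral_le_integral_abs
    _ ≤ ∫ k : ℕ, C * ((1 + ∑ u, (y u : ℝ)) + (k : ℝ)) ∂(geoM q) := by
        apply integral_mono hi.abs hb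
        intro j
        refine (h _).trans ?_
        apply mul_le_mul_of_nonneg_left _ hC
        have := sum_update_le y v j
        linarith
    _ = C * ((1 + ∑ u, (y u : ℝ)) + m) := by
        rw [integral_const_mul, integral_add (integrable_const _) hm]
        simp [hmd]
    _ ≤ C * (1 + m) * (1 + ∑ u, (y u : ℝ)) := by
        have h3 := base_pos y
        rw [mul_assoc]
        apply mul_le_mul_of_nonneg_left _ hC
        nlinarith

theorem int_update {F : (ι → ℕ) → ℝ} (hF : Integrable F (PP ι q)) (v : ι) :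
    ∫ y, F y ∂(PP ι q) = ∫ y, ∫ j, F (Function.update y v j) ∂(geoM q) ∂(PP ι q) := by
  have hg := geo_prob h0 h1
  have hpp := pp_prob (ι := ι) h0 h1
  have hmp := mp_update h0 h1 v
  conv_lhs => rw [← hmp.map_eq]
  rw [integral_map hmp.measurable.aemeasurable (measurable_of_countable _).aestronglyMeasurable]
  rw [integral_prod]
  exact hmp.integrable_comp_of_integrable hF

theorem int_update_inner {F : (ι → ℕ) → ℝ} (hF : Integrable F (PP ι q)) (v : ι) :
    Integrable (fun y => ∫ j, F (Function.update y v j) ∂(geoM q)) (PP ι q) := by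
  have hg := geo_prob h0 h1
  have hpp := pp_prob (ι := ι) h0 h1
  have hmp := mp_update h0 h1 v
  exact (hmp.integrable_comp_of_integrable hF).integral_prod_left

/-- Variance about the mean is at most the second moment about any point. -/
theorem one_var {f : ℕ → ℝ} (hf : MemLp f 2 (geoM q)) (c : ℝ) :
    ∫ j, (f j) ^ 2 ∂(geoM q) - (∫ j, f j ∂(geoM q)) ^ 2 ≤ ∫ j, (f j - c) ^ 2 ∂(geoM q) := by
  have hg := geo_prob h0 h1
  have hi : Integrable f (geoM q) := hf.integrable (by norm_num)
  have hs := hf.integrable_sq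
  have e : ∫ j, (f j - c) ^ 2 ∂(geoM q) = ∫ j, (f j) ^ 2 ∂(geoM q) -
      2 * c * ∫ j, f j ∂(geoM q) + c ^ 2 := by
    have e1 : (fun j => (f j - c) ^ 2) = fun j => ((f j) ^ 2 - 2 * c * f j) + c ^ 2 := by
      ext j
      ring
    have e2 : Integrable (fun j => (f j) ^ 2 - 2 * c * f j) (geoM q) :=
      hs.sub (hi.const_mul _)
    rw [e1, integral_add e2 (integrable_const _),
      integral_sub hs (hi.const_mul _), integral_const_mul]
    simp
  rw [e]
  nlinarith [sq_nonneg (∫ j, f j ∂(geoM q) - c)]

theorem one_jensen {f : ℕ → ℝ} (hf : MemLp f 2 (geoM q)) :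
    (∫ j, f j ∂(geoM q)) ^ 2 ≤ ∫ j, (f j) ^ 2 ∂(geoM q) := by
  have hg := geo_prob h0 h1
  have hi : Integrable f (geoM q) := hf.integrable (by norm_num)
  have hs := hf.integrable_sq
  set m := ∫ j, f j ∂(geoM q) with hm
  have e : 0 ≤ ∫ j, (f j - m) ^ 2 ∂(geoM q) := integral_nonneg fun j => sq_nonneg _
  have e1 : (fun j => (f j - m) ^ 2) = fun j => ((f j) ^ 2 - 2 * m * f j) + m ^ 2 := by
    ext j
    ring
  have e2 : Integrable (fun j => (f j) ^ 2 - 2 * m * f j) (geoM q) :=
    hs.sub (hi.const_mul _)
  rw [e1, integral_add e2 (integrable_const _),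
    integral_sub hs (hi.const_mul _), integral_const_mul, ← hm] at e
  simp only [integral_const, probReal_univ, smul_eq_mul, one_mul] at e
  nlinarith

/-- Efron-Stein inequality (variance about a reference value of each coordinate). -/
theorem efron_stein_aux (S : Finset ι) : ∀ F : (ι → ℕ) → ℝ, LG F →
    (∀ v ∉ S, ∀ y j, F (Function.update y v j) = F y) →
    ∫ y, (F y) ^ 2 ∂(PP ι q) - (∫ y, F y ∂(PP ι q)) ^ 2 ≤
      ∑ v ∈ S, ∫ y, (F y - F (Function.update y v 0)) ^ 2 ∂(PP ι q) := by
  have hg := geo_prob h0 h1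
  have hpp := pp_prob (ι := ι) h0 h1
  induction S using Finset.induction_on with
  | empty =>
    intro F _ hF
    have hconst : ∀ y, F y = F (fun _ => 0) := by
      intro y
      have h3 : ∀ R : Finset ι, F (fun v => if v ∈ R then 0 else y v) = F y := by
        intro R
        induction R using Finset.induction_on with
        | empty => simp
        | insert a R ha ih =>
          rw [← ih, ← hF a (Finset.notMem_empty a) (fun v => if v ∈ R then 0 else y v) 0]
          congr 1
          ext v
          by_cases hv : v = a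
          · subst hv
            simp
          · simp [hv]
      have := h3 Finset.univ
      simpa using this.symm
    have e1 : (fun y => (F y) ^ 2) = fun _ => (F (fun _ => 0)) ^ 2 := by
      ext y
      rw [hconst y]
    have e2 : (fun y => F y) = fun _ => F (fun _ => 0) := by
      ext y
      rw [hconst y]
    rw [e1, e2]
    simp
  | insert v S hv ih =>
    intro F hF hdep
    have hG : LG (av q v F) := hF.av h0 h1 v
    have hI := ih (av q v F) hG (by
      intro u hu y j
      unfold av
      by_cases huv : u = v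
      · subst huv
        simp only [Function.update_idem]
      · congr 1
        ext i
        rw [Function.update_comm huv]
        exact hdep u (by simp [huv, hu]) _ _)
    -- integral of the average
    have e1 : ∫ y, av q v F y ∂(PP ι q) = ∫ y, F y ∂(PP ι q) :=
      (int_update h0 h1 (hF.int h0 h1) v).symm
    -- variance splitting
    have hFu : LG (fun y => F (Function.update y v 0)) := hF.update v 0
    have hD : LG (fun y => F y - F (Function.update y v 0)) := hF.sub hFu
    have e2 : ∫ y, (F y) ^ 2 ∂(PP ι q) - ∫ y, (av q v F y) ^ 2 ∂(PP ι q) ≤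
        ∫ y, (F y - F (Function.update y v 0)) ^ 2 ∂(PP ι q) := by
      rw [int_update h0 h1 (hF.int_sq h0 h1) v, int_update h0 h1 (hD.int_sq h0 h1) v,
        ← integral_sub (int_update_inner h0 h1 (hF.int_sq h0 h1) v) (hG.int_sq h0 h1)]
      apply integral_mono ((int_update_inner h0 h1 (hF.int_sq h0 h1) v).sub (hG.int_sq h0 h1))
        (int_update_inner h0 h1 (hD.int_sq h0 h1) v)
      intro y
      have := one_var h0 h1 (hF.sec h0 h1 y v) (F (Function.update y v 0))
      simp only [Function.update_idem]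
      exact this
    have e3 : ∀ u ∈ S, ∫ y, (av q v F y - av q v F (Function.update y u 0)) ^ 2 ∂(PP ι q) ≤
        ∫ y, (F y - F (Function.update y u 0)) ^ 2 ∂(PP ι q) := by
      intro u hu
      have huv : u ≠ v := by
        rintro rfl
        exact hv hu
      have hDu : LG (fun y => F y - F (Function.update y u 0)) := hF.sub (hF.update u 0)
      rw [int_update h0 h1 (hDu.int_sq h0 h1) v]
      apply integral_mono ((hG.sub (hG.update u 0)).int_sq h0 h1)
        (int_update_inner h0 h1 (hDu.int_sq h0 h1) v)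
      intro y
      have e4 : av q v F y - av q v F (Function.update y u 0) =
          ∫ j, (F (Function.update y v j) - F (Function.update (Function.update y v j) u 0))
            ∂(geoM q) := by
        unfold av
        rw [← integral_sub ((hF.sec h0 h1 y v).integrable (by norm_num))
          ((hF.sec h0 h1 (Function.update y u 0) v).integrable (by norm_num))]
        congr 1
        ext j
        rw [Function.update_comm huv]
      simp only
      rw [e4]
      exact one_jensen h0 h1 (hDu.sec h0 h1 y v)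
    rw [Finset.sum_insert hv]
    have e5 := Finset.sum_le_sum e3
    rw [e1] at hI
    linarith

theorem efron_stein {F : (ι → ℕ) → ℝ} (hF : LG F) :
    ∫ y, (F y) ^ 2 ∂(PP ι q) - (∫ y, F y ∂(PP ι q)) ^ 2 ≤
      ∑ v, ∫ y, (F y - F (Function.update y v 0)) ^ 2 ∂(PP ι q) :=
  efron_stein_aux h0 h1 Finset.univ F hF (fun v hv => absurd (Finset.mem_univ v) hv)

end

end Pool.Agent.W977.LP
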